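import Mathlib

/-!
Convex sequences inside a sumset: translates with many common neighbours need many terms.
-/

open Finset

namespace Pool.Agent.Lib.MP_3efabe_co

/-- The first `N` terms of `a` increase, with strictly increasing gaps. -/
structure Cvx (N : ℕ) (a : ℕ → ℝ) : Prop where
  inc : ∀ i, i + 1 < N → a i < a (i + 1)
  gap : ∀ i, i + 2 < N → a (i + 1) - a i < a (i + 2) - a (i + 1)

variable {N : ℕ} {a : ℕ → ℝ}

theorem Cvx.lt (h : Cvx N a) {i j : ℕ} (hij : i < j) (hj : j < N) : a i < a j := by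
  induction j with
  | zero => omega
  | succ j ih =>
    rcases Nat.lt_succ_iff_lt_or_eq.1 hij with h1 | h1
    · exact (ih h1 (by omega)).trans (h.inc j hj)
    · rw [h1]
      exact h.inc j hj

theorem Cvx.le (h : Cvx N a) {i j : ℕ} (hij : i ≤ j) (hj : j < N) : a i ≤ a j := by
  rcases hij.lt_or_eq with h1 | h1
  · exact (h.lt h1 hj).le
  · rw [h1]

theorem Cvx.lt_of (h : Cvx N a) {i j : ℕ} (hi : i < N) (hij : a i < a j) : i < j := by
  by_contra hc
  exact absurd (h.le (not_lt.1 hc) hi) (not_le.2 hij)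

theorem Cvx.le_of (h : Cvx N a) {i j : ℕ} (hi : i < N) (hij : a i ≤ a j) : i ≤ j := by
  by_contra hc
  exact absurd (h.lt (not_le.1 hc) hi) (not_lt.2 hij)

theorem Cvx.gap_lt (h : Cvx N a) (k t : ℕ) (ht : k + (t + 1) + 1 < N) :
    a (k + 1) - a k < a (k + (t + 1) + 1) - a (k + (t + 1)) := by
  induction t with
  | zero => exact h.gap k ht
  | succ t ih => exact (ih (by omega)).trans (h.gap (k + (t + 1)) (by omega))

theorem Cvx.diff_lt (h : Cvx N a) (t : ℕ) {k l : ℕ} (hkl : k < l) (hl : l + (t + 1) < N) :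
    a (k + (t + 1)) - a k < a (l + (t + 1)) - a l := by
  induction l with
  | zero => omega
  | succ l ih =>
    have h2 := h.gap_lt l t (by omega)
    have e : l + 1 + (t + 1) = l + (t + 1) + 1 := by omega
    rw [e]
    rcases Nat.lt_succ_iff_lt_or_eq.1 hkl with h1 | h1
    · have h3 := ih h1 (by omega)
      linarith
    · rw [h1]
      linarith

theorem Cvx.diff_le (h : Cvx N a) (t : ℕ) {k l : ℕ} (hkl : k ≤ l) (hl : l + (t + 1) < N) :
    a (k + (t + 1)) - a k ≤ a (l + (t + 1)) - a l := by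
  rcases hkl.lt_or_eq with h1 | h1
  · exact (h.diff_lt t h1 hl).le
  · rw [h1]

open Classical in
/-- The number of terms that are at most `s`. -/
noncomputable def cnt (N : ℕ) (a : ℕ → ℝ) (s : ℝ) : ℕ := ((range N).filter (fun i => a i ≤ s)).card

theorem cnt_le (s : ℝ) : cnt N a s ≤ N :=
  (card_filter_le _ _).trans (card_range N).le

theorem Cvx.lt_cnt (h : Cvx N a) {i : ℕ} (hi : i < N) {s : ℝ} (hs : a i ≤ s) : i < cnt N a s := by
  have h1 : range (i + 1) ⊆ (range N).filter (fun i => a i ≤ s) := by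
    intro j hj
    rw [mem_range] at hj
    rw [mem_filter, mem_range]
    exact ⟨by omega, (h.le (by omega) hi).trans hs⟩
  have h2 := card_le_card h1
  rw [card_range] at h2
  exact h2

theorem Cvx.le_of_lt_cnt (h : Cvx N a) {i : ℕ} {s : ℝ} (hs : i < cnt N a s) : a i ≤ s := by
  by_contra hc
  have h1 : (range N).filter (fun i => a i ≤ s) ⊆ range i := by
    intro j hj
    rw [mem_filter, mem_range] at hj
    rw [mem_range]
    by_contra h2
    exact hc ((h.le (not_lt.1 h2) hj.1).trans hj.2)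
  have h2 := card_le_card h1
  rw [card_range] at h2
  exact absurd hs (not_lt.2 h2)

/-- `s` is one of the first `N` terms. -/
def Mem (N : ℕ) (a : ℕ → ℝ) (s : ℝ) : Prop := ∃ i, i < N ∧ a i = s

/-- Common neighbours of two translates give different index differences. -/
theorem Cvx.common (h : Cvx N a) {x x' z : ℝ} (hx : x < x') (hz : a 0 ≤ x + z) (Y : Finset ℝ)
    (hY : ∀ y ∈ Y, z ≤ y ∧ Mem N a (x + y) ∧ Mem N a (x' + y)) :
    Y.card + cnt N a (x + z) ≤ cnt N a (x' + z) := by
  have hk : ∀ y : ℝ, ∃ k t : ℕ, y ∈ Y →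
      k + (t + 1) < N ∧ a k = x + y ∧ a (k + (t + 1)) = x' + y := by
    intro y
    by_cases hy : y ∈ Y
    · obtain ⟨-, ⟨k, hk, e⟩, ⟨l, hl, e'⟩⟩ := hY y hy
      have hkl : k < l := h.lt_of hk (by linarith)
      obtain ⟨t, rfl⟩ := Nat.exists_eq_add_of_lt hkl
      exact ⟨k, t, fun _ => ⟨hl, e, e'⟩⟩
    · exact ⟨0, 0, fun h => absurd h hy⟩
  choose k t hkt using hk
  have hmono : cnt N a (x + z) ≤ cnt N a (x' + z) := by
    refine card_le_card fun i hi => ?_
    rw [mem_filter] at hi ⊢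
    exact ⟨hi.1, by linarith [hi.2]⟩
  have h1 : Y.card ≤ (range (cnt N a (x' + z) - cnt N a (x + z))).card := by
    refine card_le_card_of_injOn t (fun y hy => ?_) (fun y hy y' hy' e => ?_)
    · obtain ⟨h2, h3, h4⟩ := hkt y hy
      have h5 : 0 < cnt N a (x + z) := h.lt_cnt (by omega) hz
      obtain ⟨l, hl⟩ := Nat.exists_eq_succ_of_ne_zero h5.ne'
      have h6 : a l ≤ x + z := h.le_of_lt_cnt (by omega)
      have h7 : l < N := by
        have := cnt_le (N := N) (a := a) (x + z)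
        omega
      have h8 : l ≤ k y := h.le_of h7 (by linarith [(hY y hy).1])
      have h9 := h.diff_le (t y) h8 h2
      have h10 : l + (t y + 1) < cnt N a (x' + z) := h.lt_cnt (by omega) (by linarith)
      rw [coe_range, Set.mem_Iio]
      omega
    · obtain ⟨h2, h3, h4⟩ := hkt y hy
      obtain ⟨h2', h3', h4'⟩ := hkt y' hy'
      rw [← e] at h2' h4'
      rcases lt_trichotomy (k y) (k y') with h5 | h5 | h5
      · have := h.diff_lt (t y) h5 h2'
        linarith
      · rw [h5] at h3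
        linarith
      · have := h.diff_lt (t y) h5 h2
        linarith
  rw [card_range] at h1
  omega

open Classical in
/-- The number of `y` in `Y` with `x + y` a term. -/
noncomputable def deg (N : ℕ) (a : ℕ → ℝ) (Y : Finset ℝ) (x : ℝ) : ℕ :=
  (Y.filter (fun y => Mem N a (x + y))).card

theorem deg_le (Y : Finset ℝ) (x : ℝ) : deg N a Y x ≤ Y.card := by
  classical
  exact card_filter_le _ _

theorem Cvx.deg_add (h : Cvx N a) {x x' z : ℝ} (hx : x < x') (hz : a 0 ≤ x + z) (Y : Finset ℝ)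
    (hY : ∀ y ∈ Y, z ≤ y) :
    deg N a Y x + deg N a Y x' + cnt N a (x + z) ≤ Y.card + cnt N a (x' + z) := by
  classical
  have h1 := card_union_add_card_inter (Y.filter (fun y => Mem N a (x + y)))
    (Y.filter (fun y => Mem N a (x' + y)))
  have h2 : (Y.filter (fun y => Mem N a (x + y)) ∪ Y.filter (fun y => Mem N a (x' + y))).card ≤
      Y.card := card_le_card (union_subset (filter_subset _ _) (filter_subset _ _))
  have h3 := h.common hx hz
    (Y.filter (fun y => Mem N a (x + y)) ∩ Y.filter (fun y => Mem N a (x' + y))) (fun y hy => by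
      rw [mem_inter, mem_filter, mem_filter] at hy
      exact ⟨hY y hy.1.1, hy.1.2, hy.2.2⟩)
  unfold deg
  omega

/-- The bound for a rectangle all of whose sums lie above the first term. -/
theorem Cvx.rect_aux (h : Cvx N a) {z : ℝ} (Y : Finset ℝ) (hY : ∀ y ∈ Y, z ≤ y) (X : Finset ℝ) :
    (∀ x ∈ X, a 0 ≤ x + z) → ∀ p ∈ X, (∀ x ∈ X, x ≤ p) →
      2 * ∑ x ∈ X, deg N a Y x ≤ X.card * Y.card + deg N a Y p + cnt N a (p + z) := by
  classical
  induction X using Finset.induction_on_max with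
  | empty => intro _ p hp; exact absurd hp (notMem_empty p)
  | insert q X hq ih =>
    intro hz p hp hmax
    have hqX : q ∉ X := fun hc => lt_irrefl q (hq q hc)
    have hpq : p = q := by
      rcases mem_insert.1 hp with h1 | h1
      · exact h1
      · exact absurd (hmax q (mem_insert_self q X)) (not_le.2 (hq p h1))
    rw [hpq, sum_insert hqX, card_insert_of_notMem hqX, add_mul, one_mul]
    rcases X.eq_empty_or_nonempty with h1 | h1
    · have := deg_le (N := N) (a := a) Y q
      rw [h1, sum_empty, card_empty]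
      omega
    · have h2 := X.max'_mem h1
      have h3 := ih (fun x hx => hz x (mem_insert_of_mem hx)) _ h2 (fun x hx => X.le_max' x hx)
      have h4 := h.deg_add (hq _ h2) (hz _ (mem_insert_of_mem h2)) Y hY
      omega

theorem Cvx.rect (h : Cvx N a) {z : ℝ} (Y : Finset ℝ) (hY : ∀ y ∈ Y, z ≤ y) (X : Finset ℝ)
    (hX : ∀ x ∈ X, a 0 ≤ x + z) :
    2 * ∑ x ∈ X, deg N a Y x ≤ X.card * Y.card + Y.card + N := by
  rcases X.eq_empty_or_nonempty with h1 | h1
  · rw [h1, sum_empty]
    omega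
  · have h3 := h.rect_aux Y hY X hX _ (X.max'_mem h1) (fun x hx => X.le_max' x hx)
    have h4 := deg_le (N := N) (a := a) Y (X.max' h1)
    have h5 := cnt_le (N := N) (a := a) (X.max' h1 + z)
    omega

/-- Every term has two ordered representations unless it is a double. -/
theorem Cvx.two_mul_le (h : Cvx N a) (B : Finset ℝ)
    (hB : ∀ i, i < N → ∃ x ∈ B, ∃ y ∈ B, a i = x + y) :
    2 * N ≤ ∑ x ∈ B, deg N a B x + B.card := by
  classical
  have hk : ∀ i : ℕ, ∃ p : ℝ × ℝ, i < N → p.1 ∈ B ∧ p.2 ∈ B ∧ p.1 ≤ p.2 ∧ a i = p.1 + p.2 := by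
    intro i
    by_cases hi : i < N
    · obtain ⟨x, hx, y, hy, e⟩ := hB i hi
      rcases le_total x y with h1 | h1
      · exact ⟨(x, y), fun _ => ⟨hx, hy, h1, e⟩⟩
      · exact ⟨(y, x), fun _ => ⟨hy, hx, h1, by rw [e, add_comm]⟩⟩
    · exact ⟨(0, 0), fun h => absurd h hi⟩
  choose p hp using hk
  set E := (B ×ˢ B).filter (fun q : ℝ × ℝ => Mem N a (q.1 + q.2)) with hE
  have hcard : E.card = ∑ x ∈ B, deg N a B x := by
    rw [hE, card_filter, sum_product]
    refine sum_congr rfl fun x _ => ?_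
    unfold deg
    rw [card_filter]
  have hinj : ∀ i j, i < N → j < N → a i = a j → i = j := fun i j hi hj e =>
    le_antisymm (h.le_of hi e.le) (h.le_of hj e.ge)
  have h1 : (range N).card ≤ (E.filter (fun q => q.1 ≤ q.2)).card := by
    refine card_le_card_of_injOn p (fun i hi => ?_) (fun i hi j hj e => ?_)
    · rw [coe_range, Set.mem_Iio] at hi
      obtain ⟨h2, h3, h4, h5⟩ := hp i hi
      rw [mem_coe, mem_filter, hE, mem_filter, mem_product]
      exact ⟨⟨⟨h2, h3⟩, i, hi, h5⟩, h4⟩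
    · rw [coe_range, Set.mem_Iio] at hi hj
      exact hinj i j hi hj (by rw [(hp i hi).2.2.2, (hp j hj).2.2.2, e])
  have h2 : (range N).card ≤ (E.filter (fun q => q.2 ≤ q.1)).card := by
    refine card_le_card_of_injOn (fun i => (p i).swap) (fun i hi => ?_) (fun i hi j hj e => ?_)
    · rw [coe_range, Set.mem_Iio] at hi
      obtain ⟨h2, h3, h4, h5⟩ := hp i hi
      rw [mem_coe, mem_filter, hE, mem_filter, mem_product]
      exact ⟨⟨⟨h3, h2⟩, i, hi, h5.trans (add_comm _ _)⟩, h4⟩
    · rw [coe_range, Set.mem_Iio] at hi hj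
      have e' : p i = p j := Prod.swap_injective e
      exact hinj i j hi hj (by rw [(hp i hi).2.2.2, (hp j hj).2.2.2, e'])
  have h3 := card_union_add_card_inter (E.filter (fun q => q.1 ≤ q.2))
    (E.filter (fun q => q.2 ≤ q.1))
  have h4 : (E.filter (fun q => q.1 ≤ q.2) ∪ E.filter (fun q => q.2 ≤ q.1)).card ≤ E.card :=
    card_le_card (union_subset (filter_subset _ _) (filter_subset _ _))
  have h5 : (E.filter (fun q => q.1 ≤ q.2) ∩ E.filter (fun q => q.2 ≤ q.1)).card ≤ B.card := by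
    refine card_le_card_of_injOn Prod.fst (fun q hq => ?_) (fun q hq q' hq' e => ?_)
    · rw [mem_coe, mem_inter, mem_filter, hE, mem_filter, mem_product] at hq
      exact hq.1.1.1.1
    · rw [mem_coe, mem_inter] at hq hq'
      exact Prod.ext e (by
        rw [← le_antisymm (mem_filter.1 hq.1).2 (mem_filter.1 hq.2).2,
          ← le_antisymm (mem_filter.1 hq'.1).2 (mem_filter.1 hq'.2).2]
        exact e)
  rw [card_range] at h1 h2
  omega

theorem harm_le {i n : ℕ} (hi : 1 ≤ i) (hn : i ≤ n) :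
    ∑ j ∈ Ioc i n, (1 : ℝ) / j ≤ Real.log n - Real.log i := by
  induction n, hn using Nat.le_induction with
  | base => simp
  | succ n hn ih =>
    rw [sum_Ioc_succ_top hn]
    have h0 : (0 : ℝ) < n := by exact_mod_cast (by omega : 0 < n)
    have h1 := Real.one_sub_inv_le_log_of_pos (show 0 < ((n : ℝ) + 1) / n by positivity)
    rw [Real.log_div (by positivity) h0.ne'] at h1
    have h2 : 1 - (((n : ℝ) + 1) / n)⁻¹ = 1 / (n + 1) := by
      field_simp
      ring
    push_cast
    linarith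

/-- The elements of `B` that are at least `p`. -/
noncomputable def rows (B : Finset ℝ) (p : ℝ) : Finset ℝ := B.filter (fun x => p ≤ x)

/-- The elements `y` of `B` with `p + y` at least `s`. -/
noncomputable def cols (B : Finset ℝ) (s p : ℝ) : Finset ℝ := B.filter (fun y => s ≤ p + y)

theorem Cvx.deg_le_cols (h : Cvx N a) (B : Finset ℝ) (x : ℝ) :
    deg N a B x ≤ (cols B (a 0) x).card := by
  classical
  refine card_le_card fun y hy => ?_
  obtain ⟨h1, i, hi, e⟩ := mem_filter.1 hy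
  exact mem_filter.2 ⟨h1, e ▸ h.le (Nat.zero_le i) hi⟩

theorem Cvx.deg_split (h : Cvx N a) (B : Finset ℝ) {p x : ℝ} (hx : p ≤ x) :
    deg N a B x + (cols B (a 0) p).card ≤
      deg N a (cols B (a 0) p) x + (cols B (a 0) x).card := by
  classical
  have h1 := card_union_add_card_inter (B.filter (fun y => Mem N a (x + y))) (cols B (a 0) p)
  have h2 : (B.filter (fun y => Mem N a (x + y)) ∪ cols B (a 0) p).card ≤
      (cols B (a 0) x).card := by
    refine card_le_card (union_subset (fun y hy => ?_) (fun y hy => ?_))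
    · obtain ⟨h1, i, hi, e⟩ := mem_filter.1 hy
      exact mem_filter.2 ⟨h1, e ▸ h.le (Nat.zero_le i) hi⟩
    · obtain ⟨h1, h2⟩ := mem_filter.1 hy
      exact mem_filter.2 ⟨h1, by linarith⟩
  have h3 : (B.filter (fun y => Mem N a (x + y)) ∩ cols B (a 0) p).card ≤
      ((cols B (a 0) p).filter (fun y => Mem N a (x + y))).card := by
    refine card_le_card fun y hy => ?_
    obtain ⟨h1, h2⟩ := mem_inter.1 hy
    exact mem_filter.2 ⟨h2, (mem_filter.1 h1).2⟩
  unfold deg
  omega

theorem Cvx.corner (h : Cvx N a) (B : Finset ℝ)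
    (hB : ∀ i, i < N → ∃ x ∈ B, ∃ y ∈ B, a i = x + y) (p : ℝ) :
    3 * N + (rows B p).card * (cols B (a 0) p).card ≤
      2 * ∑ x ∈ B, (cols B (a 0) x).card + 3 * B.card := by
  classical
  have h1 := h.two_mul_le B hB
  have h2 := h.rect (z := a 0 - p) (cols B (a 0) p)
    (fun y hy => by linarith [(mem_filter.1 hy).2]) (rows B p)
    (fun x hx => by linarith [(mem_filter.1 hx).2])
  have h3 : ∑ x ∈ rows B p, (deg N a B x + (cols B (a 0) p).card) ≤
      ∑ x ∈ rows B p, (deg N a (cols B (a 0) p) x + (cols B (a 0) x).card) :=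
    sum_le_sum fun x hx => h.deg_split B (mem_filter.1 hx).2
  rw [sum_add_distrib, sum_add_distrib, sum_const, smul_eq_mul] at h3
  have h4 := sum_filter_add_sum_filter_not B (fun x => p ≤ x) (deg N a B)
  have h5 := sum_filter_add_sum_filter_not B (fun x => p ≤ x) (fun x => (cols B (a 0) x).card)
  have h6 : ∑ x ∈ B.filter (fun x => ¬ p ≤ x), deg N a B x ≤
      ∑ x ∈ B.filter (fun x => ¬ p ≤ x), (cols B (a 0) x).card :=
    sum_le_sum fun x _ => h.deg_le_cols B x
  have h7 : (cols B (a 0) p).card ≤ B.card := card_filter_le _ _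
  unfold rows at h2 h3 ⊢
  omega

theorem rows_lt (B : Finset ℝ) {p q : ℝ} (hp : p ∈ B) (hpq : p < q) :
    (rows B q).card < (rows B p).card := by
  refine card_lt_card ⟨fun x hx => ?_, fun hc => ?_⟩
  · exact mem_filter.2 ⟨(mem_filter.1 hx).1, hpq.le.trans (mem_filter.1 hx).2⟩
  · exact absurd (mem_filter.1 (hc (mem_filter.2 ⟨hp, le_rfl⟩))).2 (not_le.2 hpq)

/-- A staircase whose corner rectangles have area at most `P`. -/
theorem stair (B : Finset ℝ) (c : ℝ → ℕ) (P : ℝ) (hP : 0 ≤ P) (hc : ∀ p ∈ B, c p ≤ B.card)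
    (hr : ∀ p ∈ B, ((rows B p).card : ℝ) * c p ≤ P) {i : ℕ} (hi : 1 ≤ i) (hn : i ≤ B.card) :
    ∑ p ∈ B, (c p : ℝ) ≤ i * B.card + P * (Real.log B.card - Real.log i) := by
  classical
  let f : ℕ → ℝ := fun j => if j ≤ i then (B.card : ℝ) else P * (1 / j)
  have hinj : Set.InjOn (fun p => (rows B p).card) B := by
    intro p hp q hq e
    rcases lt_trichotomy p q with h1 | h1 | h1
    · exact absurd e (rows_lt B hp h1).ne'
    · exact h1
    · exact absurd e (rows_lt B hq h1).ne
  have hpos : ∀ p ∈ B, 0 < (rows B p).card := fun p hp =>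
    card_pos.2 ⟨p, mem_filter.2 ⟨hp, le_rfl⟩⟩
  have h1 : ∑ p ∈ B, (c p : ℝ) ≤ ∑ p ∈ B, f (rows B p).card := by
    refine sum_le_sum fun p hp => ?_
    simp only [f]
    split_ifs
    · exact_mod_cast hc p hp
    · have h0 : (0 : ℝ) < (rows B p).card := by exact_mod_cast hpos p hp
      rw [mul_one_div, le_div_iff₀ h0, mul_comm]
      exact hr p hp
  have h2 : ∑ p ∈ B, f (rows B p).card ≤ ∑ j ∈ Ioc 0 B.card, f j := by
    rw [← sum_image hinj]
    refine sum_le_sum_of_subset_of_nonneg (fun j hj => ?_) (fun j _ _ => ?_)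
    · obtain ⟨p, hp, rfl⟩ := mem_image.1 hj
      exact mem_Ioc.2 ⟨hpos p hp, card_filter_le _ _⟩
    · simp only [f]
      split_ifs <;> positivity
  have h3 : ∑ j ∈ Ioc 0 i, f j = i * B.card := by
    rw [sum_congr rfl (g := fun _ => (B.card : ℝ)) (fun j hj => if_pos (mem_Ioc.1 hj).2),
      sum_const, Nat.card_Ioc, nsmul_eq_mul, Nat.sub_zero]
  have h4 : ∑ j ∈ Ioc i B.card, f j = P * ∑ j ∈ Ioc i B.card, (1 : ℝ) / j := by
    rw [mul_sum]
    exact sum_congr rfl fun j hj => if_neg (not_le.2 (mem_Ioc.1 hj).1)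
  rw [← sum_Ioc_consecutive f (Nat.zero_le i) hn, h3, h4] at h2
  have h5 := mul_le_mul_of_nonneg_left (harm_le hi hn) hP
  linarith

theorem Cvx.bound (h : Cvx N a) (B : Finset ℝ)
    (hB : ∀ i, i < N → ∃ x ∈ B, ∃ y ∈ B, a i = x + y) :
    (N : ℝ) ≤ 2 / (3 * √(Real.exp 1)) * (B.card : ℝ) ^ 2 + 2 * B.card := by
  rcases Nat.eq_zero_or_pos N with h0 | h0
  · rw [h0, Nat.cast_zero]
    positivity
  obtain ⟨x, hx, -⟩ := hB 0 h0
  have hn : 0 < B.card := card_pos.2 ⟨x, hx⟩
  have hn' : (0 : ℝ) < B.card := by exact_mod_cast hn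
  have hs : 1 ≤ √(Real.exp 1) := Real.one_le_sqrt.2 (Real.one_le_exp zero_le_one)
  have hs0 : 0 < √(Real.exp 1) := by linarith
  have hq : (0 : ℝ) < B.card / √(Real.exp 1) := by positivity
  have hi1 : 1 ≤ ⌈(B.card : ℝ) / √(Real.exp 1)⌉₊ := Nat.ceil_pos.2 hq
  have hi2 : ⌈(B.card : ℝ) / √(Real.exp 1)⌉₊ ≤ B.card := Nat.ceil_le.2 (div_le_self hn'.le hs)
  have hi3 := Nat.le_ceil ((B.card : ℝ) / √(Real.exp 1))
  have hi4 := Nat.ceil_lt_add_one hq.le
  generalize ⌈(B.card : ℝ) / √(Real.exp 1)⌉₊ = i at hi1 hi2 hi3 hi4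
  have hl : Real.log B.card - Real.log i ≤ 1 / 2 := by
    have h1 := Real.log_le_log hq hi3
    rw [Real.log_div hn'.ne' hs0.ne', Real.log_sqrt (Real.exp_pos 1).le, Real.log_exp] at h1
    linarith
  have hc : ∀ p : ℝ, ((rows B p).card : ℝ) * (cols B (a 0) p).card ≤
      2 * ∑ x ∈ B, ((cols B (a 0) x).card : ℝ) + 3 * B.card - 3 * N := by
    intro p
    have h1 : (3 * N + (rows B p).card * (cols B (a 0) p).card : ℝ) ≤
        2 * ∑ x ∈ B, ((cols B (a 0) x).card : ℝ) + 3 * B.card := by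
      exact_mod_cast h.corner B hB p
    linarith
  have hP : 0 ≤ 2 * ∑ x ∈ B, ((cols B (a 0) x).card : ℝ) + 3 * B.card - 3 * N :=
    le_trans (by positivity) (hc x)
  have h1 := stair B (fun p => (cols B (a 0) p).card) _ hP (fun p _ => card_filter_le _ _)
    (fun p _ => hc p) hi1 hi2
  have h2 := mul_le_mul_of_nonneg_left hl hP
  have h3 : (i : ℝ) * B.card ≤ (B.card / √(Real.exp 1) + 1) * B.card :=
    mul_le_mul_of_nonneg_right hi4.le hn'.le
  have h4 : 2 / (3 * √(Real.exp 1)) * (B.card : ℝ) ^ 2 =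
      2 / 3 * (B.card / √(Real.exp 1) * B.card) := by
    field_simp
  rw [h4]
  linarith

end Pool.Agent.Lib.MP_3efabe_co
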